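import Pool.Agent.H27.L1.H68.GHY.Targets
import Pool.Agent.H27.L1.H34.GM.MSR

/-!
# MP_52e316_nt, row H2D of ghy_modules: the square of the majorant
(after Pool/Agent/H91/GU/H2U.lean)
-/

set_option autoImplicit false

namespace Pool.Agent.H27.L1.H88.GHY

open MeasureTheory Pool.Agent.H27.L1.H34.GM Pool.Agent.H27.L1.H34.GZ Pool.Agent.H27.L1.H34.GU Pool.Agent.H27.L1.H68.GHY
open scoped ENNReal

/-- measurability of the size of the argument of the kernel -/
private theorem mszk {m : ℕ} (r : ℝ) (ρ g : Mat m) :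
    Measurable fun z : V m => sz (kk r (mt z) ρ g - 1) := by
  obtain ⟨_, _, _, _, _, _, h1, _⟩ := pf_MSR.1 m
  have h3 : Measurable fun z : V m => (z, ((fun i j => g i j : V m))) :=
    measurable_id.prodMk measurable_const
  have h4 := (h1 r ρ).comp h3
  have h5 : mt (fun i j => g i j : V m) = g := by
    ext i j
    rfl
  have h6 : ((fun p : V m × V m => ((fun i j => kk r (mt p.1) ρ (mt p.2) i j) : V m)) ∘
      fun z : V m => (z, ((fun i j => g i j : V m)))) =
      fun z : V m => ((fun i j => kk r (mt z) ρ (mt (fun i j => g i j : V m)) i j) : V m) := by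
    funext z
    rw [Function.comp_apply]
  rw [h6, h5] at h4
  have h7 : (fun z : V m => sz (kk r (mt z) ρ g - 1)) = fun z : V m =>
      ‖((fun i j => kk r (mt z) ρ g i j) : V m) - ((fun i j => (1 : Mat m) i j) : V m)‖ := by
    funext z
    rw [sz]
    rfl
  rw [h7]
  exact (h4.sub measurable_const).norm

/-- the condition of the kernel -/
private def P {m : ℕ} (d x0 y : ℝ) (b : Mat m) (γ : ZM m) (h : Mat m) : Prop :=
  wd x0 d γ.det.natAbs ∧ y ^ 2 / 4 < (γ.det.natAbs : ℝ) ∧ (γ.det.natAbs : ℝ) ≤ y ^ 2 ∧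
    sz (kk (aN (cR γ)) h (cR γ) b - 1) ≤ d

open Classical in
/-- the integrand -/
private noncomputable def G {m : ℕ} (N : ℕ) (x : VN m N) (d x0 y : ℝ) (b : Mat m) (γ : ZM m)
    (h : Mat m) : ENNReal :=
  if P d x0 y b γ h then (NL γ : ENNReal) ^ 2 * ∑' γ' : ZM m,
    (if ac N γ' x = ac N γ x ∧ P d x0 y b γ' h then 1 else 0) else 0

/-- measurability of the condition -/
private theorem mP {m : ℕ} (d x0 y : ℝ) (b : Mat m) (γ : ZM m) :
    MeasurableSet {z : V m | P d x0 y b γ (mt z)} := by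
  have h1 : {z : V m | P d x0 y b γ (mt z)} = {z : V m | wd x0 d γ.det.natAbs} ∩
      ({z : V m | y ^ 2 / 4 < (γ.det.natAbs : ℝ)} ∩
      ({z : V m | (γ.det.natAbs : ℝ) ≤ y ^ 2} ∩
        {z : V m | sz (kk (aN (cR γ)) (mt z) (cR γ) b - 1) ≤ d})) := rfl
  rw [h1]
  exact (MeasurableSet.const _).inter ((MeasurableSet.const _).inter
    ((MeasurableSet.const _).inter (measurableSet_le (mszk _ _ _) measurable_const)))

private theorem cZM (m : ℕ) : Countable (ZM m) := by
  unfold ZM Matrix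
  infer_instance

private theorem mG {m : ℕ} (N : ℕ) (x : VN m N) (d x0 y : ℝ) (b : Mat m) (γ : ZM m) :
    Measurable fun z : V m => G N x d x0 y b γ (mt z) := by
  classical
  have := cZM m
  unfold G
  refine Measurable.ite (mP d x0 y b γ) ?_ measurable_const
  refine Measurable.const_mul ?_ _
  refine Measurable.tsum fun γ' => ?_
  refine Measurable.ite ?_ measurable_const measurable_const
  exact (MeasurableSet.const (ac N γ' x = ac N γ x)).inter (mP d x0 y b γ')

/-- the square of a sum -/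
private theorem sq_le {ι : Type} (f : ι → ENNReal) (R : ι → ι → Prop)
    [∀ i j, Decidable (R i j)] (hR : ∀ i j, R i j → R j i) :
    ∑' i, ∑' j, (if R i j then f i * f j else 0) ≤
      ∑' i, f i ^ 2 * ∑' j, (if R i j then 1 else 0) := by
  have h1 : ∀ a b : ENNReal, a * b ≤ (a ^ 2 + b ^ 2) / 2 := by
    intro a b
    rcases eq_or_ne a ⊤ with ha | ha
    · subst ha
      have : ((⊤ : ENNReal) ^ 2 + b ^ 2) / 2 = ⊤ := by
        rw [ENNReal.top_pow (by norm_num), top_add, ENNReal.top_div_of_ne_top (by norm_num)]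
      rw [this]
      exact le_top
    rcases eq_or_ne b ⊤ with hb | hb
    · subst hb
      have : (a ^ 2 + (⊤ : ENNReal) ^ 2) / 2 = ⊤ := by
        rw [ENNReal.top_pow (by norm_num), add_top, ENNReal.top_div_of_ne_top (by norm_num)]
      rw [this]
      exact le_top
    lift a to NNReal using ha
    lift b to NNReal using hb
    rw [ENNReal.le_div_iff_mul_le (Or.inl (by norm_num)) (Or.inl (by norm_num))]
    have h2 : a * b * 2 ≤ a ^ 2 + b ^ 2 := by
      have h3 : (a : ℝ) * b * 2 ≤ (a : ℝ) ^ 2 + (b : ℝ) ^ 2 := by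
        nlinarith [sq_nonneg ((a : ℝ) - b)]
      exact_mod_cast h3
    exact_mod_cast h2
  have h2 : ∑' i, ∑' j, (if R i j then f i * f j else 0) ≤
      ∑' i, ∑' j, ((if R i j then f i ^ 2 / 2 else 0) + (if R i j then f j ^ 2 / 2 else 0)) := by
    refine ENNReal.tsum_le_tsum fun i => ENNReal.tsum_le_tsum fun j => ?_
    by_cases h : R i j
    · rw [if_pos h, if_pos h, if_pos h, ← ENNReal.add_div]
      exact h1 _ _
    · rw [if_neg h, if_neg h, if_neg h, add_zero]
  refine h2.trans (le_of_eq ?_)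
  have h3 : ∑' i, ∑' j, (if R i j then f j ^ 2 / 2 else 0) =
      ∑' i, ∑' j, (if R i j then f i ^ 2 / 2 else 0) := by
    rw [ENNReal.tsum_comm]
    refine tsum_congr fun i => tsum_congr fun j => ?_
    by_cases h : R j i
    · rw [if_pos h, if_pos (hR _ _ h)]
    · rw [if_neg h, if_neg fun h' => h (hR _ _ h')]
  have h4 : ∑' i, ∑' j, ((if R i j then f i ^ 2 / 2 else 0) + (if R i j then f j ^ 2 / 2 else 0))
      = ∑' i, ∑' j, (if R i j then f i ^ 2 / 2 else 0) +
        ∑' i, ∑' j, (if R i j then f j ^ 2 / 2 else 0) := by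
    rw [← ENNReal.tsum_add]
    refine tsum_congr fun i => ?_
    rw [ENNReal.tsum_add]
  rw [h4, h3, ← ENNReal.tsum_add]
  refine tsum_congr fun i => ?_
  rw [← ENNReal.tsum_add, ← ENNReal.tsum_mul_left]
  refine tsum_congr fun j => ?_
  by_cases h : R i j
  · rw [if_pos h, if_pos h, mul_one, ENNReal.add_halves]
  · rw [if_neg h, if_neg h, mul_zero, add_zero]

open Classical in
/-- the sum over `z` of the square of the kernel -/
private theorem sum_sq {m : ℕ} (N : ℕ) [NeZero N] (d x0 y : ℝ)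
    (b : Mat m) (x : VN m N) (h : Mat m) :
    ∑ z : VN m N, (Kd d y x0 b x h z) ^ 2 ≤ ∑' γ : ZM m, G N x d x0 y b γ h := by
  -- the terms
  set f : ZM m → ENNReal := fun γ => if P d x0 y b γ h then (NL γ : ENNReal) else 0 with hf
  have h1 : ∀ z : VN m N, Kd d y x0 b x h z = ∑' γ : ZM m,
      if ac N γ x = z ∧ Pr z then f γ else 0 := by
    intro z
    unfold Kd
    refine tsum_congr fun γ => ?_
    by_cases h1 : ac N γ x = z ∧ Pr z
    · rw [if_pos h1]
      by_cases h2 : P d x0 y b γ h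
      · rw [if_pos ⟨h1.1, h1.2, h2⟩]
        exact (if_pos h2).symm
      · rw [if_neg fun h3 => h2 h3.2.2]
        exact (if_neg h2).symm
    · rw [if_neg h1, if_neg fun h3 => h1 ⟨h3.1, h3.2.1⟩]
  have h2 : ∑ z : VN m N, (Kd d y x0 b x h z) ^ 2 ≤
      ∑' γ : ZM m, ∑' γ' : ZM m, (if ac N γ' x = ac N γ x then f γ * f γ' else 0) := by
    have e1 : ∀ z : VN m N, (Kd d y x0 b x h z) ^ 2 = ∑' γ : ZM m, ∑' γ' : ZM m,
        (if ac N γ x = z ∧ Pr z then f γ else 0) *
          (if ac N γ' x = z ∧ Pr z then f γ' else 0) := by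
      intro z
      rw [sq, h1 z, ← ENNReal.tsum_mul_right]
      refine tsum_congr fun γ => ?_
      rw [ENNReal.tsum_mul_left]
    simp only [e1]
    rw [← tsum_fintype (L := SummationFilter.unconditional _), ENNReal.tsum_comm]
    refine ENNReal.tsum_le_tsum fun γ => ?_
    rw [ENNReal.tsum_comm]
    refine ENNReal.tsum_le_tsum fun γ' => ?_
    rw [tsum_fintype]
    rw [Finset.sum_eq_single (ac N γ x)]
    · by_cases h3 : ac N γ' x = ac N γ x
      · rw [if_pos h3, h3]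
        by_cases h4 : Pr (ac N γ x)
        · rw [if_pos ⟨rfl, h4⟩, if_pos ⟨rfl, h4⟩]
        · rw [if_neg fun h5 : ac N γ x = ac N γ x ∧ Pr (ac N γ x) => h4 h5.2, zero_mul]
          exact bot_le
      · rw [if_neg h3, if_neg (c := ac N γ' x = ac N γ x ∧ Pr (ac N γ x))
          (fun h5 => h3 h5.1), mul_zero]
    · intro z _ hz
      rw [if_neg (c := ac N γ x = z ∧ Pr z) (fun h5 => hz h5.1.symm), zero_mul]
    · intro h3
      exact absurd (Finset.mem_univ _) h3
  set R : ZM m → ZM m → Prop := fun γ γ' =>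
    ac N γ' x = ac N γ x ∧ P d x0 y b γ h ∧ P d x0 y b γ' h with hR
  have h3 : ∑' γ : ZM m, ∑' γ' : ZM m, (if ac N γ' x = ac N γ x then f γ * f γ' else 0) =
      ∑' γ : ZM m, ∑' γ' : ZM m, (if R γ γ' then (NL γ : ENNReal) * (NL γ' : ENNReal) else 0) := by
    refine tsum_congr fun γ => tsum_congr fun γ' => ?_
    simp only [hf]
    by_cases e1 : ac N γ' x = ac N γ x
    · by_cases e2 : P d x0 y b γ h
      · by_cases e3 : P d x0 y b γ' h
        · rw [if_pos e1, if_pos e2, if_pos e3, if_pos (show R γ γ' from ⟨e1, e2, e3⟩)]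
        · rw [if_pos e1, if_neg e3, if_neg (fun e4 : R γ γ' => e3 e4.2.2), mul_zero]
      · rw [if_pos e1, if_neg e2, if_neg (fun e4 : R γ γ' => e2 e4.2.1), zero_mul]
    · rw [if_neg e1, if_neg (fun e4 : R γ γ' => e1 e4.1)]
  rw [h3] at h2
  refine h2.trans ((sq_le (fun γ => (NL γ : ENNReal)) R ?_).trans ?_)
  · rintro γ γ' ⟨e1, e2, e3⟩
    exact ⟨e1.symm, e3, e2⟩
  · refine ENNReal.tsum_le_tsum fun γ => ?_
    unfold G
    by_cases e2 : P d x0 y b γ h
    · rw [if_pos e2]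
      refine mul_le_mul_right (ENNReal.tsum_le_tsum fun γ' => ?_) _
      by_cases e1 : ac N γ' x = ac N γ x ∧ P d x0 y b γ' h
      · rw [if_pos e1, if_pos (show R γ γ' from ⟨e1.1, e2, e1.2⟩)]
      · rw [if_neg e1, if_neg (fun e4 : R γ γ' => e1 ⟨e4.1, e4.2.2⟩)]
    · rw [if_neg e2]
      have e3 : ∑' γ' : ZM m, (if R γ γ' then (1 : ENNReal) else 0) = 0 := by
        rw [ENNReal.tsum_eq_zero]
        intro γ'
        rw [if_neg (fun e4 : R γ γ' => e2 e4.2.1)]
      rw [e3, mul_zero]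

/-- invariance of the argument of the kernel -/
private theorem kk_inv (hALZ : T_ALZ) {m : ℕ} (hm : 1 ≤ m) (b : Mat m) (c γ : ZM m) (z : Mat m)
    (hc : IsUnit c) :
    kk (aN (cR (c * γ))) (cR c * z) (cR (c * γ)) b = kk (aN (cR γ)) z (cR γ) b := by
  obtain ⟨⟨⟨-, hmul⟩, hdet⟩, -, -, -, hun, -, -⟩ := hALZ m 2 hm (by norm_num)
  have h1 : c.det.natAbs = 1 := (hun c).1 hc
  have h2 : |(cR c).det| = 1 := by rw [(hdet c).2, h1]; norm_num
  have h3 : (cR c).det ≠ 0 := by
    intro h0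
    rw [h0, abs_zero] at h2
    exact zero_ne_one h2
  have h4 : ∀ w : Mat m, aN (cR c * w) = aN w := by
    intro w
    unfold aN
    rw [Matrix.det_mul, abs_mul, h2, one_mul]
  rw [(hmul c γ).1]
  unfold kk
  rw [h4, h4, Matrix.mul_inv_rev]
  have h5 : (cR c)⁻¹ * cR c = 1 := Matrix.nonsing_inv_mul _ (isUnit_iff_ne_zero.2 h3)
  have h6 : z⁻¹ * (cR c)⁻¹ * (cR c * cR γ) * b = z⁻¹ * cR γ * b := by
    calc z⁻¹ * (cR c)⁻¹ * (cR c * cR γ) * b = z⁻¹ * ((cR c)⁻¹ * cR c) * cR γ * b := by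
          simp only [Matrix.mul_assoc]
      _ = _ := by rw [h5, Matrix.mul_one]
  rw [h6]

private theorem P_inv (hALZ : T_ALZ) {m : ℕ} (hm : 1 ≤ m) (d x0 y : ℝ) (b : Mat m) (c γ : ZM m)
    (z : Mat m) (hc : IsUnit c) : P d x0 y b (c * γ) (cR c * z) ↔ P d x0 y b γ z := by
  have h1 : (c * γ).det.natAbs = γ.det.natAbs := by
    obtain ⟨-, -, -, -, hun, -, -⟩ := hALZ m 2 hm (by norm_num)
    rw [Matrix.det_mul, Int.natAbs_mul, (hun c).1 hc, one_mul]
  unfold P
  rw [kk_inv hALZ hm b c γ z hc, h1]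

private theorem NL_inv {m : ℕ} (c γ : ZM m) (hc : IsUnit c) : NL (c * γ) = NL γ := by
  have h1 : ∀ (u w : ZM m) (M : AddSubgroup (Fin m → ℤ)), (∀ i, w i ∈ M) → ∀ i, (u * w) i ∈ M := by
    intro u w M hw i
    have h2 : (u * w) i = ∑ j, u i j • w j := by
      funext l
      rw [Matrix.mul_apply, Finset.sum_apply]
      refine Finset.sum_congr rfl fun j _ => ?_
      rw [Pi.smul_apply, smul_eq_mul]
    rw [h2]
    exact AddSubgroup.sum_mem _ fun j _ => AddSubgroup.zsmul_mem _ (hw j) _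
  unfold NL
  congr 1
  obtain ⟨u, rfl⟩ := hc
  have h3 : ∀ M : AddSubgroup (Fin m → ℤ), (∀ i, ((u : ZM m) * γ) i ∈ M) ↔ ∀ i, γ i ∈ M := by
    intro M
    constructor
    · intro h
      have h4 := h1 (↑u⁻¹ : ZM m) _ M h
      rw [← Matrix.mul_assoc, Units.inv_mul, Matrix.one_mul] at h4
      exact h4
    · exact h1 _ _ M
  simp only [h3]

private theorem G_inv (hALZ : T_ALZ) (hALU : T_ALU) {m : ℕ} (hm : 1 ≤ m) (N : ℕ) [NeZero N]
    (hN : 1 ≤ N) (x : VN m N) (d x0 y : ℝ) (b : Mat m) (c γ : ZM m) (z : Mat m) (hc : IsUnit c) :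
    G N x d x0 y b (c * γ) (cR c * z) = G N x d x0 y b γ z := by
  classical
  obtain ⟨-, hmul, -, -, -, hbij⟩ := hALU m N hm hN
  unfold G
  rw [NL_inv c γ hc]
  have h1 : ∑' γ' : ZM m, (if ac N γ' x = ac N (c * γ) x ∧ P d x0 y b γ' (cR c * z) then
      (1 : ENNReal) else 0) =
      ∑' γ' : ZM m, (if ac N γ' x = ac N γ x ∧ P d x0 y b γ' z then 1 else 0) := by
    obtain ⟨u, rfl⟩ := hc
    rw [← (Units.mulLeft u).tsum_eq]
    refine tsum_congr fun γ' => ?_
    rw [Units.mulLeft_apply]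
    have h2 : ac N ((u : ZM m) * γ') x = ac N ((u : ZM m) * γ) x ↔ ac N γ' x = ac N γ x := by
      rw [(hmul _ _ _).1, (hmul _ _ _).1]
      exact (hbij u u.isUnit).injective.eq_iff
    exact if_congr (and_congr h2 (P_inv hALZ hm d x0 y b u γ' z u.isUnit)) rfl rfl
  rw [h1]
  by_cases h2 : P d x0 y b γ z
  · rw [if_pos h2, if_pos ((P_inv hALZ hm d x0 y b c γ z hc).2 h2)]
  · rw [if_neg h2, if_neg fun h3 => h2 ((P_inv hALZ hm d x0 y b c γ z hc).1 h3)]

open Classical in
theorem pf_H2D : T_UNL → T_VTH → T_CLD → T_CNV → T_CNT → T_ALU → T_ALZ → T_IDX → T_H2D := by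
  intro hUNL hVTH hCLD hCNV hCNT hALU hALZ hIDX m hm
  obtain ⟨Cc, hCc, hcld⟩ := hCLD m hm
  have hm' : (0 : ℝ) < m := by exact_mod_cast hm
  obtain ⟨Cs, hCs, hvth⟩ := hVTH m hm
  refine ⟨Cs, 2 * Cc * (m * 2 ^ m), hCs, by positivity, ?_⟩
  intro N _ D hN hD y x0 d hy hx0 hd hd2 b n a k hS sel vs hsel x hx
  have hb : b.det ≠ 0 := by
    have h1 := (hCNT m b n a k hS).2.2.2
    intro h0
    rw [h0, abs_zero] at h1
    exact (Finset.prod_pos fun j _ => hS.pos j).ne h1
  have hShell : MeasurableSet (Shell m) := by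
    obtain ⟨_, _, _, _, _, h1, _⟩ := pf_MSR.1 m
    exact h1
  have hdet : ∀ z : V m, 1 ≤ aN (mt z) → (mt z).det ≠ 0 := by
    intro z hz h0
    unfold aN at hz
    rw [h0, abs_zero, Real.zero_rpow (by positivity)] at hz
    linarith
  have hadd := (hALU m N hm hN).2.1
  have := cZM m
  -- the sum over the matrices
  have s1 : ∫⁻ h in D, ∑ z : VN m N, (Kd d y x0 b x (mt h) z) ^ 2 ∂(Pool.Agent.H27.L1.H34.GM.hm m) ≤
      ∫⁻ h in D, ∑' γ : ZM m, (if γ.det ≠ 0 then G N x d x0 y b γ (mt h) else 0)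
        ∂(Pool.Agent.H27.L1.H34.GM.hm m) := by
    refine lintegral_mono fun h => ?_
    refine (sum_sq N d x0 y b x (mt h)).trans (ENNReal.tsum_le_tsum fun γ => ?_)
    by_cases h1 : γ.det ≠ 0
    · rw [if_pos h1]
    · rw [if_neg h1]
      unfold G
      rw [if_neg]
      intro h2
      rw [not_not] at h1
      have h3 := h2.2.1
      rw [h1] at h3
      simp only [Int.natAbs_zero, Nat.cast_zero] at h3
      nlinarith [sq_nonneg y]
  refine s1.trans ?_
  rw [hUNL m D hm hD sel (fun L hL => ⟨hsel.det L hL, hsel.gen L hL⟩)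
    (fun γ z => G N x d x0 y b γ (mt z)) (fun γ => mG N x d x0 y b γ)
    (fun c γ z hc _ => G_inv hALZ hALU hm N hN x d x0 y b c γ (mt z) hc),
    ← ENNReal.tsum_mul_left]
  refine ENNReal.tsum_le_tsum fun L => ?_
  by_cases hL : L.index ≠ 0
  swap
  · rw [if_neg hL]
    exact bot_le
  rw [if_pos hL]
  have hidx : (sel L).det.natAbs = L.index := by
    rw [← (hIDX m).1 (sel L) (hsel.det L hL), hsel.gen L hL]
  by_cases hw : wd x0 d L.index ∧ y ^ 2 / 4 < (L.index : ℝ) ∧ (L.index : ℝ) ≤ y ^ 2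
  swap
  · rw [if_neg hw, mul_zero]
    have h0 : ∀ z : V m, G N x d x0 y b (sel L) (mt z) = 0 := by
      intro z
      unfold G
      rw [if_neg]
      intro h2
      refine hw ?_
      rw [← hidx]
      exact ⟨h2.1, h2.2.1, h2.2.2.1⟩
    simp only [h0]
    rw [lintegral_zero]
  rw [if_pos hw]
  -- the number of the matrices
  obtain ⟨n', k', hS'⟩ := hsel.sgl L hL
  have hrow : ∀ i, rowN (vb (sel L i) b) ≤ m * 2 ^ m * vs L i := by
    intro i
    have h1 := (hCNT m _ n' (vs L) k' hS').2.1 i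
    have h2 : (cR (sel L) * b) i = vb (sel L i) b := by
      funext j
      unfold vb
      rw [Matrix.mul_apply]
      rfl
    rw [h2] at h1
    exact h1
  have hvs : ∀ i, 0 ≤ Cc * d * (m * 2 ^ m * vs L i) := fun i => by
    have := (hS'.pos i).le
    positivity
  obtain ⟨hfin, hcard⟩ := hCNV m N b n a k hm hN hS sel vs hsel
    (fun i => Cc * d * (m * 2 ^ m * vs L i)) x hx hvs
  set W : ENNReal := (NL (sel L) : ENNReal) ^ 2 *
    ENNReal.ofReal (∏ i, ∏ j, (1 + 2 * Cc * (m * 2 ^ m) * d * vs L i / vs (kl x) j)) with hW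
  have hWtop : W ≠ ⊤ := by
    rw [hW]
    exact ENNReal.mul_ne_top (ENNReal.pow_ne_top (ENNReal.natCast_ne_top _)) ENNReal.ofReal_ne_top
  have hpt : ∀ z ∈ Shell m, G N x d x0 y b (sel L) (mt z) ≤
      W * (if sz (kk (aN (cR (sel L))) (mt z) (cR (sel L)) b - 1) ≤ d then 1 else 0) := by
    intro z hz
    have hz0 := hdet z hz.1
    unfold G
    by_cases hP : P d x0 y b (sel L) (mt z)
    swap
    · rw [if_neg hP]
      exact bot_le
    rw [if_pos hP, if_pos hP.2.2.2, mul_one, hW]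
    refine mul_le_mul_right ?_ _
    have h1 : ∑' γ' : ZM m, (if ac N γ' x = ac N (sel L) x ∧ P d x0 y b γ' (mt z) then
        (1 : ENNReal) else 0) ≤
        ∑' β : ZM m, (if β ∈ hfin.toFinset then (1 : ENNReal) else 0) := by
      rw [← (Equiv.subRight (sel L)).tsum_eq
        (fun β => if β ∈ hfin.toFinset then (1 : ENNReal) else 0)]
      refine ENNReal.tsum_le_tsum fun γ' => ?_
      rw [Equiv.subRight_apply]
      by_cases h2 : ac N γ' x = ac N (sel L) x ∧ P d x0 y b γ' (mt z)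
      · rw [if_pos h2, if_pos]
        rw [Set.Finite.mem_toFinset]
        refine ⟨?_, fun i => ?_⟩
        · have h3 := (hadd (γ' - sel L) (sel L) x).2
          rw [sub_add_cancel, h2.1] at h3
          exact left_eq_add.1 (h3.trans (add_comm _ _))
        · refine (hcld (sel L) γ' b (mt z) x0 d hb hz0 hx0 hd hd2 hP.1 h2.2.1 hP.2.2.2
            h2.2.2.2.2 i).trans ?_
          exact mul_le_mul_of_nonneg_left (hrow i) (by positivity)
      · rw [if_neg h2]
        exact bot_le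
    refine h1.trans ?_
    rw [tsum_eq_sum (s := hfin.toFinset) (fun γ' hγ' => if_neg hγ'),
      Finset.sum_congr rfl (fun γ' hγ' => if_pos hγ'), Finset.sum_const, nsmul_eq_mul, mul_one,
      ← Set.ncard_eq_toFinset_card _ hfin]
    have h3 : ∏ i, ∏ j, (1 + 2 * Cc * (m * 2 ^ m) * d * vs L i / vs (kl x) j) =
        ∏ i, ∏ j, (1 + 2 * (Cc * d * (m * 2 ^ m * vs L i)) / vs (kl x) j) := by
      refine Finset.prod_congr rfl fun i _ => Finset.prod_congr rfl fun j _ => ?_
      congr 2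
      ring
    rw [h3]
    refine le_trans (le_of_eq ?_) (ENNReal.ofReal_le_ofReal hcard)
    rw [ENNReal.ofReal_natCast]
  calc ∫⁻ z in Shell m, G N x d x0 y b (sel L) (mt z) ∂(Pool.Agent.H27.L1.H34.GM.hm m)
      ≤ ∫⁻ z in Shell m, W * (if sz (kk (aN (cR (sel L))) (mt z) (cR (sel L)) b - 1) ≤ d then 1
          else 0) ∂(Pool.Agent.H27.L1.H34.GM.hm m) := setLIntegral_mono' hShell hpt
    _ = W * ∫⁻ z in Shell m, (if sz (kk (aN (cR (sel L))) (mt z) (cR (sel L)) b - 1) ≤ d then 1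
          else 0) ∂(Pool.Agent.H27.L1.H34.GM.hm m) := lintegral_const_mul' _ _ hWtop
    _ ≤ W * ENNReal.ofReal (Cs * d ^ (m ^ 2 - 1)) := by
        refine mul_le_mul_right (hvth d hd hd2 (cR (sel L)) b ?_ hb) _
        rw [((hALZ m 2 hm (by norm_num)).1.2 (sel L)).1]
        exact_mod_cast hsel.det L hL
    _ = ENNReal.ofReal (Cs * d ^ (m ^ 2 - 1)) * W := mul_comm _ _

end Pool.Agent.H27.L1.H88.GHY
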